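import Mathlib
import Pool.Agent.MP_af84f5_co.Defs

namespace Pool.Agent.MP_af84f5_co.H64

open Pool.Agent.MP_af84f5_co

/-- Arcs of the first orientation. -/
def arcsA : List (Fin 7 × Fin 7) :=
  [(0, 1), (0, 3), (1, 2), (2, 3), (1, 3), (0, 4), (0, 6), (4, 5), (5, 6), (4, 6)]

/-- Arcs of the second orientation. -/
def arcsB : List (Fin 7 × Fin 7) :=
  [(0, 1), (0, 3), (1, 2), (2, 3), (1, 3), (5, 4), (5, 6), (4, 0), (0, 6), (4, 6)]

def digA : Digraph (Fin 7) where
  Adj u v := (u, v) ∈ arcsA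

def digB : Digraph (Fin 7) where
  Adj u v := (u, v) ∈ arcsB

instance : DecidableRel digA.Adj := fun u v => inferInstanceAs (Decidable ((u, v) ∈ arcsA))
instance : DecidableRel digB.Adj := fun u v => inferInstanceAs (Decidable ((u, v) ∈ arcsB))

/-- The involution of pairs carrying the arcs of `digA` to those of `digB`. -/
def sw (a : Fin 7 × Fin 7) : Fin 7 × Fin 7 :=
  if a = (0, 4) then (5, 4) else if a = (5, 4) then (0, 4)
  else if a = (0, 6) then (5, 6) else if a = (5, 6) then (0, 6)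
  else if a = (4, 5) then (4, 0) else if a = (4, 0) then (4, 5) else a

theorem sw_sw : ∀ a, sw (sw a) = a := by decide

def swE : Equiv.Perm (Fin 7 × Fin 7) := ⟨sw, sw, sw_sw, sw_sw⟩

theorem sw_adj : ∀ a : Fin 7 × Fin 7, digA.Adj a.1 a.2 ↔ digB.Adj (sw a).1 (sw a).2 := by decide

/-- No cyclic triangle in the block with arcs `x→u, x→v, u→y, y→v, u→v`, reversed when the flags
`a, b, c, d, e` are set. -/
def good (a b c d e : Bool) : Bool :=
  !((!a && !e && b) || (a && e && !b) || (!c && !d && e) || (c && d && !e))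

def pv (e : Bool) : ℤ := if e then -4 else 4

def px (a b e : Bool) : ℤ :=
  if !a && !b then -10 else if a && b then 10 else if e then -2 else 2

def py (c d e : Bool) : ℤ :=
  if c && !d then -10 else if !c && d then 10 else if e then -2 else 2

theorem pot : ∀ a b c d e : Bool, good a b c d e = true →
    (if a then 0 < px a b e else px a b e < 0) ∧
    (if b then pv e < px a b e else px a b e < pv e) ∧
    (if c then py c d e < 0 else 0 < py c d e) ∧
    (if d then pv e < py c d e else py c d e < pv e) ∧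
    (if e then pv e < 0 else 0 < pv e) := by decide

theorem acyclic_of_pot {V : Type} (G : Digraph V) (f : V → ℤ)
    (h : ∀ u v, G.Adj u v → f u < f v) : IsAcyclicDigraph G := by
  intro v hv
  have key : ∀ u w, Relation.TransGen G.Adj u w → f u < f w := by
    intro u w huw
    induction huw with
    | single h1 => exact h _ _ h1
    | tail _ h2 ih => exact ih.trans (h _ _ h2)
  exact lt_irrefl _ (key v v hv)

theorem not_acyclic_of_tri {V : Type} (G : Digraph V) (u v w : V) (h1 : G.Adj u v)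
    (h2 : G.Adj v w) (h3 : G.Adj w u) : ¬ IsAcyclicDigraph G := fun h =>
  h u (((Relation.TransGen.single h1).tail h2).tail h3)

/-- A block of an acyclic reorientation has no cyclic triangle. -/
theorem good_of_acyclic {V : Type} (D : Digraph V) (S : Set (V × V))
    [∀ a, Decidable (a ∈ S)] (h : IsAcyclicDigraph (reorient D S)) (x u y v : V)
    (h1 : D.Adj x u) (h2 : D.Adj x v) (h3 : D.Adj u y) (h4 : D.Adj y v) (h5 : D.Adj u v) :
    good (decide ((x, u) ∈ S)) (decide ((x, v) ∈ S)) (decide ((u, y) ∈ S))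
      (decide ((y, v) ∈ S)) (decide ((u, v) ∈ S)) = true := by
  by_contra hg
  simp only [good, Bool.not_eq_false, Bool.or_eq_true, Bool.and_eq_true,
    decide_eq_true_eq, decide_eq_false_iff_not, Bool.not_eq_eq_eq_not, Bool.not_true] at hg
  rcases hg with ((⟨⟨ha, he⟩, hb⟩ | ⟨⟨ha, he⟩, hb⟩) | ⟨⟨hc, hd⟩, he⟩) | ⟨⟨hc, hd⟩, he⟩
  · exact not_acyclic_of_tri _ x u v (Or.inl ⟨h1, ha⟩) (Or.inl ⟨h5, he⟩) (Or.inr ⟨h2, hb⟩) h
  · exact not_acyclic_of_tri _ x v u (Or.inl ⟨h2, hb⟩) (Or.inr ⟨h5, he⟩) (Or.inr ⟨h1, ha⟩) h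
  · exact not_acyclic_of_tri _ u y v (Or.inl ⟨h3, hc⟩) (Or.inl ⟨h4, hd⟩) (Or.inr ⟨h5, he⟩) h
  · exact not_acyclic_of_tri _ u v y (Or.inl ⟨h5, he⟩) (Or.inr ⟨h4, hd⟩) (Or.inr ⟨h3, hc⟩) h

theorem acyclic_of_arcs {V : Type} (D : Digraph V) (S : Set (V × V))
    [∀ a, Decidable (a ∈ S)] (f : V → ℤ)
    (h : ∀ u v, D.Adj u v → if (u, v) ∈ S then f v < f u else f u < f v) :
    IsAcyclicDigraph (reorient D S) := by
  refine acyclic_of_pot _ f ?_
  rintro u v (⟨h1, h2⟩ | ⟨h1, h2⟩)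
  · simpa [h2] using h u v h1
  · simpa [h2] using h v u h1

theorem acyclicA_iff (S : Set (Fin 7 × Fin 7)) [∀ a, Decidable (a ∈ S)] :
    IsAcyclicDigraph (reorient digA S) ↔
      good (decide ((0, 1) ∈ S)) (decide ((0, 3) ∈ S)) (decide ((1, 2) ∈ S))
        (decide ((2, 3) ∈ S)) (decide ((1, 3) ∈ S)) = true ∧
      good (decide ((0, 4) ∈ S)) (decide ((0, 6) ∈ S)) (decide ((4, 5) ∈ S))
        (decide ((5, 6) ∈ S)) (decide ((4, 6) ∈ S)) = true := by
  constructor
  · intro h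
    exact ⟨good_of_acyclic digA S h 0 1 2 3 (by decide) (by decide) (by decide) (by decide)
      (by decide), good_of_acyclic digA S h 0 4 5 6 (by decide) (by decide) (by decide)
      (by decide) (by decide)⟩
  · rintro ⟨g1, g2⟩
    obtain ⟨p1, p2, p3, p4, p5⟩ := pot _ _ _ _ _ g1
    obtain ⟨q1, q2, q3, q4, q5⟩ := pot _ _ _ _ _ g2
    set X := px (decide ((0, 1) ∈ S)) (decide ((0, 3) ∈ S)) (decide ((1, 3) ∈ S))
    set Y := py (decide ((1, 2) ∈ S)) (decide ((2, 3) ∈ S)) (decide ((1, 3) ∈ S))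
    set W := pv (decide ((1, 3) ∈ S))
    set X' := px (decide ((0, 4) ∈ S)) (decide ((0, 6) ∈ S)) (decide ((4, 6) ∈ S))
    set Y' := py (decide ((4, 5) ∈ S)) (decide ((5, 6) ∈ S)) (decide ((4, 6) ∈ S))
    set W' := pv (decide ((4, 6) ∈ S))
    refine acyclic_of_arcs digA S ![0, -X, Y - X, W - X, -X', Y' - X', W' - X'] ?_
    intro u v huv
    simp only [digA, arcsA, List.mem_cons, Prod.mk.injEq, List.not_mem_nil, or_false] at huv
    simp only [decide_eq_true_eq] at p1 p2 p3 p4 p5 q1 q2 q3 q4 q5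
    rcases huv with ⟨rfl, rfl⟩ | ⟨rfl, rfl⟩ | ⟨rfl, rfl⟩ | ⟨rfl, rfl⟩ | ⟨rfl, rfl⟩ | ⟨rfl, rfl⟩ |
      ⟨rfl, rfl⟩ | ⟨rfl, rfl⟩ | ⟨rfl, rfl⟩ | ⟨rfl, rfl⟩ <;>
    · split_ifs with hS <;> simp only [hS, if_true, if_false] at * <;> simp <;> omega

theorem acyclicB_iff (S : Set (Fin 7 × Fin 7)) [∀ a, Decidable (a ∈ S)] :
    IsAcyclicDigraph (reorient digB S) ↔
      good (decide ((0, 1) ∈ S)) (decide ((0, 3) ∈ S)) (decide ((1, 2) ∈ S))
        (decide ((2, 3) ∈ S)) (decide ((1, 3) ∈ S)) = true ∧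
      good (decide ((5, 4) ∈ S)) (decide ((5, 6) ∈ S)) (decide ((4, 0) ∈ S))
        (decide ((0, 6) ∈ S)) (decide ((4, 6) ∈ S)) = true := by
  constructor
  · intro h
    exact ⟨good_of_acyclic digB S h 0 1 2 3 (by decide) (by decide) (by decide) (by decide)
      (by decide), good_of_acyclic digB S h 5 4 0 6 (by decide) (by decide) (by decide)
      (by decide) (by decide)⟩
  · rintro ⟨g1, g2⟩
    obtain ⟨p1, p2, p3, p4, p5⟩ := pot _ _ _ _ _ g1
    obtain ⟨q1, q2, q3, q4, q5⟩ := pot _ _ _ _ _ g2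
    set X := px (decide ((0, 1) ∈ S)) (decide ((0, 3) ∈ S)) (decide ((1, 3) ∈ S))
    set Y := py (decide ((1, 2) ∈ S)) (decide ((2, 3) ∈ S)) (decide ((1, 3) ∈ S))
    set W := pv (decide ((1, 3) ∈ S))
    set X' := px (decide ((5, 4) ∈ S)) (decide ((5, 6) ∈ S)) (decide ((4, 6) ∈ S))
    set Y' := py (decide ((4, 0) ∈ S)) (decide ((0, 6) ∈ S)) (decide ((4, 6) ∈ S))
    set W' := pv (decide ((4, 6) ∈ S))
    refine acyclic_of_arcs digB S ![0, -X, Y - X, W - X, -Y', X' - Y', W' - Y'] ?_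
    intro u v huv
    simp only [digB, arcsB, List.mem_cons, Prod.mk.injEq, List.not_mem_nil, or_false] at huv
    simp only [decide_eq_true_eq] at p1 p2 p3 p4 p5 q1 q2 q3 q4 q5
    rcases huv with ⟨rfl, rfl⟩ | ⟨rfl, rfl⟩ | ⟨rfl, rfl⟩ | ⟨rfl, rfl⟩ | ⟨rfl, rfl⟩ | ⟨rfl, rfl⟩ |
      ⟨rfl, rfl⟩ | ⟨rfl, rfl⟩ | ⟨rfl, rfl⟩ | ⟨rfl, rfl⟩ <;>
    · split_ifs with hS <;> simp only [hS, if_true, if_false] at * <;> simp <;> omega

theorem acyclic_sw (S : Set (Fin 7 × Fin 7)) :
    IsAcyclicDigraph (reorient digA S) ↔ IsAcyclicDigraph (reorient digB (sw ⁻¹' S)) := by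
  classical
  rw [acyclicA_iff, acyclicB_iff]
  rfl

theorem image_sw (S : Set (Fin 7 × Fin 7)) : swE '' S = sw ⁻¹' S := by
  ext a
  constructor
  · rintro ⟨b, hb, rfl⟩
    change sw (sw b) ∈ S
    rwa [sw_sw]
  · intro ha
    exact ⟨sw a, ha, sw_sw a⟩

theorem pre_pre (S : Set (Fin 7 × Fin 7)) : sw ⁻¹' (sw ⁻¹' S) = S := by
  ext a
  simp [sw_sw]

/-- The order isomorphism between the two acyclic reorientation posets. -/
def arIso : AR digA ≃o AR digB where
  toFun S := ⟨sw ⁻¹' S.1, fun a ha => by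
      have h := (sw_adj (sw a)).mp (S.2.1 ha)
      rwa [sw_sw] at h, (acyclic_sw S.1).mp S.2.2⟩
  invFun T := ⟨sw ⁻¹' T.1, fun a ha => (sw_adj a).mpr (T.2.1 ha),
      (acyclic_sw _).mpr (by rw [pre_pre]; exact T.2.2)⟩
  left_inv S := Subtype.ext (pre_pre S.1)
  right_inv T := Subtype.ext (pre_pre T.1)
  map_rel_iff' := by
    intro S T
    constructor
    · intro h a ha
      have h1 : sw a ∈ sw ⁻¹' S.1 := by
        change sw (sw a) ∈ S.1
        rwa [sw_sw]
      have h2 : sw (sw a) ∈ T.1 := h h1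
      rwa [sw_sw] at h2
    · intro h a ha
      exact h ha

theorem digA_acyclic : IsAcyclicDigraph digA :=
  acyclic_of_pot digA ![0, 1, 2, 3, 1, 2, 3] (by decide)

theorem digB_acyclic : IsAcyclicDigraph digB :=
  acyclic_of_pot digB ![2, 3, 4, 5, 1, 0, 3] (by decide)

theorem under_eq : digA.toSimpleGraphInclusive = digB.toSimpleGraphInclusive := by
  ext u v
  simp only [Digraph.toSimpleGraphInclusive, SimpleGraph.fromRel_adj]
  revert u v
  decide

theorem adjA (u v : Fin 7) :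
    digA.toSimpleGraphInclusive.Adj u v ↔ u ≠ v ∧ (digA.Adj u v ∨ digA.Adj v u) := by
  simp only [Digraph.toSimpleGraphInclusive, SimpleGraph.fromRel_adj]

theorem adjB (u v : Fin 7) :
    digB.toSimpleGraphInclusive.Adj u v ↔ u ≠ v ∧ (digB.Adj u v ∨ digB.Adj v u) := by
  simp only [Digraph.toSimpleGraphInclusive, SimpleGraph.fromRel_adj]

theorem connA : digA.toSimpleGraphInclusive.Connected := by
  have h : ∀ v, digA.toSimpleGraphInclusive.Reachable 0 v := by
    have a1 : digA.toSimpleGraphInclusive.Adj 0 1 := (adjA _ _).mpr (by decide)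
    have a3 : digA.toSimpleGraphInclusive.Adj 0 3 := (adjA _ _).mpr (by decide)
    have a4 : digA.toSimpleGraphInclusive.Adj 0 4 := (adjA _ _).mpr (by decide)
    have a6 : digA.toSimpleGraphInclusive.Adj 0 6 := (adjA _ _).mpr (by decide)
    have a2 : digA.toSimpleGraphInclusive.Adj 1 2 := (adjA _ _).mpr (by decide)
    have a5 : digA.toSimpleGraphInclusive.Adj 4 5 := (adjA _ _).mpr (by decide)
    intro v
    fin_cases v
    · exact SimpleGraph.Reachable.refl _
    · exact a1.reachable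
    · exact a1.reachable.trans a2.reachable
    · exact a3.reachable
    · exact a4.reachable
    · exact a4.reachable.trans a5.reachable
    · exact a6.reachable
  exact (SimpleGraph.connected_iff_exists_forall_reachable _).mpr ⟨0, h⟩

theorem not_peoA : ¬ PeoConsistent digA := by
  intro h
  unfold PeoConsistent at h
  generalize hW : (Set.univ : Set (Fin 7)) = W at h
  cases h with
  | small _ hs =>
    subst hW
    exact absurd (hs (Set.mem_univ (0 : Fin 7)) (Set.mem_univ 1)) (by decide)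
  | step _ v h0 h1 h2 h3 =>
    subst hW
    simp only [Set.mem_univ, forall_const, adjA] at h1 h2
    clear h0 h3
    revert v
    decide

theorem peo_step (W : Finset (Fin 7)) (v : Fin 7) (hv : v ∈ W)
    (h1 : (∀ u ∈ W, ¬ digB.Adj u v) ∨ (∀ u ∈ W, ¬ digB.Adj v u))
    (h2 : ∀ u ∈ W, ∀ w ∈ W, (v ≠ u ∧ (digB.Adj v u ∨ digB.Adj u v)) →
      (v ≠ w ∧ (digB.Adj v w ∨ digB.Adj w v)) → u ≠ w →
      (u ≠ w ∧ (digB.Adj u w ∨ digB.Adj w u)))
    (h3 : PeoOn digB ((W.erase v : Finset (Fin 7)) : Set (Fin 7))) :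
    PeoOn digB (W : Set (Fin 7)) := by
  refine PeoOn.step _ v (by exact_mod_cast hv) ?_ ?_ ?_
  · simpa using h1
  · simpa only [adjB, Finset.mem_coe] using h2
  · simpa using h3

theorem peoB : PeoConsistent digB := by
  unfold PeoConsistent
  rw [← Finset.coe_univ]
  refine peo_step _ 5 (by decide) (by decide) (by decide) ?_
  refine peo_step _ 4 (by decide) (by decide) (by decide) ?_
  refine peo_step _ 6 (by decide) (by decide) (by decide) ?_
  refine peo_step _ 0 (by decide) (by decide) (by decide) ?_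
  refine peo_step _ 1 (by decide) (by decide) (by decide) ?_
  refine peo_step _ 2 (by decide) (by decide) (by decide) ?_
  refine PeoOn.small _ ?_
  intro a ha b hb
  simp only [Finset.mem_coe] at ha hb
  revert a b
  decide

/-- The linear involution matching the two graphical arrangements. -/
def linMap : (Fin 7 → ℝ) →ₗ[ℝ] (Fin 7 → ℝ) where
  toFun x := ![x 0, x 1, x 2, x 3, x 0 + x 4 - x 5, 2 * x 0 - x 5, x 0 + x 6 - x 5]
  map_add' x y := by
    ext i
    fin_cases i <;> simp <;> ring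
  map_smul' c x := by
    ext i
    fin_cases i <;> simp <;> ring

theorem linMap_invol : Function.Involutive linMap := by
  intro x
  ext i
  fin_cases i <;> simp [linMap] <;> ring

noncomputable def linE : (Fin 7 → ℝ) ≃ₗ[ℝ] (Fin 7 → ℝ) :=
  LinearEquiv.ofInvolutive linMap linMap_invol

theorem linE_arc (a : Fin 7 × Fin 7) (ha : digA.Adj a.1 a.2) (x : Fin 7 → ℝ) :
    linE x (swE a).2 - linE x (swE a).1 = x a.2 - x a.1 := by
  obtain ⟨u, v⟩ := a
  simp only [digA, arcsA, List.mem_cons, Prod.mk.injEq, List.not_mem_nil, or_false] at ha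
  change linMap x (sw (u, v)).2 - linMap x (sw (u, v)).1 = x v - x u
  rcases ha with ⟨rfl, rfl⟩ | ⟨rfl, rfl⟩ | ⟨rfl, rfl⟩ | ⟨rfl, rfl⟩ | ⟨rfl, rfl⟩ | ⟨rfl, rfl⟩ |
      ⟨rfl, rfl⟩ | ⟨rfl, rfl⟩ | ⟨rfl, rfl⟩ | ⟨rfl, rfl⟩ <;>
    simp [sw, linMap] <;> ring

end Pool.Agent.MP_af84f5_co.H64
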